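import Pool.Agent.H23.PL.Targets

/-!
# The value of the square root of a polynomial
-/

set_option autoImplicit false

open Finset Polynomial Pool.Agent.H23.PL

namespace Pool.Agent.H72.PLD

theorem pf_SRS : T_SRS := by
  intro G g R x hg0 hconv hg hx hRx
  have hR : 0 ≤ R := by
    have := (abs_nonneg _).trans (hg 1)
    simpa using this
  have hq0 : 0 ≤ R * x := by positivity
  have hq : R * x ≤ 1 / 4 := by linarith
  have hb : ∀ k, ‖g k * x ^ k‖ ≤ (1 / 4 : ℝ) ^ k := by
    intro k
    rw [norm_mul, norm_pow, Real.norm_eq_abs, Real.norm_eq_abs, abs_of_pos hx]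
    calc |g k| * x ^ k ≤ R ^ k * x ^ k := by
          gcongr
          exact hg k
      _ = (R * x) ^ k := by rw [mul_pow]
      _ ≤ (1 / 4) ^ k := pow_le_pow_left₀ hq0 hq k
  have hgeo : Summable (fun k : ℕ => (1 / 4 : ℝ) ^ k) :=
    summable_geometric_of_lt_one (by norm_num) (by norm_num)
  have hsn : Summable (fun k => ‖g k * x ^ k‖) :=
    Summable.of_nonneg_of_le (fun _ => norm_nonneg _) hb hgeo
  have hs : Summable (fun k => g k * x ^ k) := hsn.of_norm
  refine ⟨hs, ?_, ?_⟩
  · have h1 : ∑' k, g k * x ^ k = 1 + ∑' k, g (k + 1) * x ^ (k + 1) := by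
      rw [hs.tsum_eq_zero_add, hg0]
      simp
    have h2 : ‖∑' k, g (k + 1) * x ^ (k + 1)‖ ≤ 1 / 3 := by
      have hgeo' : HasSum (fun k : ℕ => (1 / 4 : ℝ) ^ (k + 1)) (1 / 3) := by
        have h := (hasSum_geometric_of_lt_one (show (0 : ℝ) ≤ 1 / 4 by norm_num)
          (by norm_num)).mul_left (1 / 4)
        have e : (1 / 4 : ℝ) * (1 - 1 / 4)⁻¹ = 1 / 3 := by norm_num
        rw [e] at h
        have e2 : (fun k : ℕ => (1 / 4 : ℝ) ^ (k + 1)) = fun k => 1 / 4 * (1 / 4) ^ k := by
          funext k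
          rw [pow_succ, mul_comm]
        rw [e2]
        exact h
      exact tsum_of_norm_bounded hgeo' fun k => hb (k + 1)
    rw [h1]
    have h3 := (abs_le.1 (Real.norm_eq_abs _ ▸ h2)).1
    linarith
  · rw [sq, tsum_mul_tsum_eq_tsum_sum_antidiagonal_of_summable_norm hsn hsn]
    have h1 : ∀ n, ∑ kl ∈ antidiagonal n, g kl.1 * x ^ kl.1 * (g kl.2 * x ^ kl.2) =
        G.coeff n * x ^ n := by
      intro n
      rw [← hconv n, sum_mul]
      refine sum_congr rfl fun ij hij => ?_
      rw [HasAntidiagonal.mem_antidiagonal] at hij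
      rw [← hij, pow_add]
      ring
    simp_rw [h1]
    rw [tsum_eq_sum (s := range (G.natDegree + 1))]
    · rw [eval_eq_sum_range]
    · intro n hn
      rw [mem_range, not_lt] at hn
      rw [coeff_eq_zero_of_natDegree_lt (by omega), zero_mul]

end Pool.Agent.H72.PLD
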